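import Mathlib

/-! Arbitrarily large sets compressed by two different cubic polynomials. -/

set_option autoImplicit false

namespace Pool.Agent.Results.MP_29b953_an.Counter

open Polynomial

/-- `f` is a compressing function for `S`: `S` is the orbit `x₀, f x₀, …, f^{N-1} x₀` of some `x₀ ∈ S`, `N = |S|` -/
def Compresses (f : ℝ[X]) (S : Finset ℝ) : Prop :=
  ∃ x₀ ∈ S, (S : Set ℝ) = (fun i => f.eval^[i] x₀) '' Set.Iio S.card

noncomputable def c {q : ℕ} [NeZero q] (k : ZMod q) : ℝ := (ZMod.stdAddChar k).re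

lemma normSq_one {q : ℕ} [NeZero q] (k : ZMod q) : (ZMod.stdAddChar k).re ^ 2 + (ZMod.stdAddChar k).im ^ 2 = 1 := by
  have := Circle.normSq_coe (ZMod.toCircle k)
  rw [Complex.normSq_apply] at this
  rw [ZMod.stdAddChar_apply]
  linarith

lemma c_three {q : ℕ} [NeZero q] (k : ZMod q) : c (-3 * k) = 4 * c k ^ 3 - 3 * c k := by
  have e : ZMod.stdAddChar (-3 * k) = (starRingEnd ℂ) (ZMod.stdAddChar k ^ 3) := by
    rw [← AddChar.map_nsmul_eq_pow, ← AddChar.map_neg_eq_conj]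
    congr 1
    simp
  have := normSq_one k
  simp only [c, e, Complex.conj_re, pow_succ, pow_zero, one_mul, Complex.mul_re, Complex.mul_im] at this ⊢
  linear_combination (-3 * (ZMod.stdAddChar k).re) * this

lemma c_inj {q : ℕ} [NeZero q] {k l : ZMod q} (h : c k = c l) : k = l ∨ k = -l := by
  have h1 := normSq_one k
  have h2 := normSq_one l
  unfold c at h
  rw [h] at h1
  rcases sq_eq_sq_iff_eq_or_eq_neg.1 (show (ZMod.stdAddChar k).im ^ 2 = (ZMod.stdAddChar l).im ^ 2 by linarith)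
    with e | e
  · exact Or.inl (ZMod.injective_stdAddChar (Complex.ext h e))
  · refine Or.inr (ZMod.injective_stdAddChar ?_)
    rw [AddChar.map_neg_eq_conj]
    exact Complex.ext h e

lemma c_half {n : ℕ} (k : ZMod (2 ^ (n + 1))) : c (k + 2 ^ n) = -c k := by
  have h : ZMod.stdAddChar (2 ^ n : ZMod (2 ^ (n + 1))) = -1 := by
    have e : (2 ^ n + 2 ^ n : ZMod (2 ^ (n + 1))) = 0 := by
      have := ZMod.natCast_self (2 ^ (n + 1))
      push_cast at this
      rw [← this]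
      ring
    have e2 : ZMod.stdAddChar (2 ^ n : ZMod (2 ^ (n + 1))) * ZMod.stdAddChar (2 ^ n : ZMod (2 ^ (n + 1))) = 1 := by
      rw [← AddChar.map_add_eq_mul, e, AddChar.map_zero_eq_one]
    refine (mul_self_eq_one_iff.1 e2).resolve_left fun e3 => ?_
    have e4 : ((2 ^ n : ℕ) : ZMod (2 ^ (n + 1))) = 0 := by
      push_cast
      exact ZMod.injective_stdAddChar (e3.trans (AddChar.map_zero_eq_one _).symm)
    rw [ZMod.natCast_eq_zero_iff] at e4
    exact absurd (Nat.le_of_dvd (by positivity) e4) (not_le.2 (Nat.pow_lt_pow_right (by norm_num) n.lt_succ_self))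
  simp [c, AddChar.map_add_eq_mul, h]

/-- residues that are `1` modulo `4` -/
def H (n : ℕ) : Finset (ZMod (2 ^ (n + 2))) := (Finset.range (2 ^ n)).image fun j : ℕ => 1 + 4 * (j : ZMod _)

lemma mem_H {n : ℕ} (a : ZMod (2 ^ (n + 2))) : 1 + 4 * a ∈ H n := by
  refine Finset.mem_image.2 ⟨a.val % 2 ^ n, Finset.mem_range.2 (Nat.mod_lt _ (by positivity)), ?_⟩
  have e := congrArg (Nat.cast : ℕ → ZMod (2 ^ (n + 2))) (Nat.mod_add_div a.val (2 ^ n))
  have z := ZMod.natCast_self (2 ^ (n + 2))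
  rw [ZMod.natCast_zmod_val, Nat.cast_add, Nat.cast_mul, Nat.cast_pow] at e
  rw [Nat.cast_pow] at z
  linear_combination 4 * e - ((a.val / 2 ^ n : ℕ) : ZMod (2 ^ (n + 2))) * z

lemma pow_form {R : Type*} [CommRing R] (a : R) (i : ℕ) : ∃ b, (1 + 4 * a) ^ i = 1 + 4 * b := by
  induction i with
  | zero => exact ⟨0, by simp⟩
  | succ i ih =>
    obtain ⟨b, hb⟩ := ih
    exact ⟨a + b + 4 * a * b, by rw [pow_succ, hb]; ring⟩

lemma image_pow {n : ℕ} (a : ℤ) (ha : Odd a) :
    (Finset.range (2 ^ n)).image (fun i => (1 + 4 * a : ZMod (2 ^ (n + 2))) ^ i) = H n ∧ (H n).card = 2 ^ n := by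
  have h1 : ((Finset.range (2 ^ n)).image fun i => (1 + 4 * a : ZMod (2 ^ (n + 2))) ^ i).card = 2 ^ n := by
    rw [Finset.card_image_of_injOn, Finset.card_range]
    rw [Finset.coe_range, ← ZMod.orderOf_one_add_four_mul a ha n]
    exact pow_injOn_Iio_orderOf
  have h2 : (H n).card ≤ 2 ^ n := Finset.card_image_le.trans (Finset.card_range _).le
  have h3 : ((Finset.range (2 ^ n)).image fun i => (1 + 4 * a : ZMod (2 ^ (n + 2))) ^ i) ⊆ H n := by
    intro x hx
    obtain ⟨i, -, rfl⟩ := Finset.mem_image.1 hx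
    obtain ⟨b, hb⟩ := pow_form (a : ZMod (2 ^ (n + 2))) i
    rw [hb]
    exact mem_H b
  have := Finset.eq_of_subset_of_card_le h3 (h2.trans h1.ge)
  exact ⟨this, this ▸ h1⟩

lemma card_S (n : ℕ) : ((H n).image c).card = 2 ^ n := by
  rw [Finset.card_image_of_injOn, (image_pow 1 odd_one).2]
  intro k hk l hl h
  refine (c_inj h).resolve_right fun e => ?_
  obtain ⟨i, -, rfl⟩ := Finset.mem_image.1 hk
  obtain ⟨j, -, rfl⟩ := Finset.mem_image.1 hl
  have : ((2 + 4 * (i + j) : ℕ) : ZMod (2 ^ (n + 2))) = 0 := by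
    push_cast
    linear_combination e
  rw [ZMod.natCast_eq_zero_iff, pow_add] at this
  have := (Dvd.intro_left _ rfl).trans this
  omega

lemma comp_of {n : ℕ} (a : ℤ) (ha : Odd a) (f : ℝ[X])
    (hf : ∀ b : ZMod (2 ^ (n + 2)), f.eval (c (1 + 4 * b)) = c ((1 + 4 * (a : ZMod (2 ^ (n + 2)))) * (1 + 4 * b))) :
    Compresses f ((H n).image c) := by
  have h1 : ∀ i, f.eval^[i] (c (1 : ZMod (2 ^ (n + 2)))) = c ((1 + 4 * a : ZMod (2 ^ (n + 2))) ^ i) := by
    intro i
    induction i with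
    | zero => simp
    | succ i ih =>
      obtain ⟨b, hb⟩ := pow_form (a : ZMod (2 ^ (n + 2))) i
      rw [Function.iterate_succ_apply', ih, pow_succ' _ i, hb, hf]
  refine ⟨c (1 : ZMod (2 ^ (n + 2))), Finset.mem_image_of_mem _ (by simpa using mem_H (n := n) 0), ?_⟩
  rw [card_S, ← (image_pow a ha).1, Finset.image_image, Finset.coe_image, Finset.coe_range]
  simp only [h1]
  rfl

theorem result (M : ℕ) : ∃ S : Finset ℝ, M ≤ S.card ∧ ∃ f g : ℝ[X], f ≠ g ∧ f.natDegree = 3 ∧ g.natDegree = 3 ∧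
    Compresses f S ∧ Compresses g S := by
  have d1 : (C 4 * X ^ 3 - C 3 * X : ℝ[X]).natDegree = 3 := by compute_degree!
  refine ⟨(H (M + 2)).image c, ?_, C 4 * X ^ 3 - C 3 * X, -(C 4 * X ^ 3 - C 3 * X), fun e => ?_, d1,
    by rw [natDegree_neg, d1], comp_of (-1) (by decide) _ fun b => ?_,
    comp_of (-1 + 2 ^ (M + 1)) (Odd.add_even (by decide) (by simp [Int.even_pow])) _ fun b => ?_⟩
  · rw [card_S]
    exact (Nat.le_add_right M 2).trans Nat.lt_two_pow_self.le
  · have := congrArg (eval 1) e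
    norm_num at this
  · rw [show (1 + 4 * ((-1 : ℤ) : ZMod (2 ^ (M + 2 + 2)))) = -3 by push_cast; ring, c_three]
    simp
  · have z := ZMod.natCast_self (2 ^ (M + 2 + 2))
    rw [Nat.cast_pow] at z
    have e : (1 + 4 * ((-1 + 2 ^ (M + 1) : ℤ) : ZMod (2 ^ (M + 2 + 2)))) * (1 + 4 * b) =
        -3 * (1 + 4 * b) + 2 ^ (M + 3) := by
      push_cast at z ⊢
      linear_combination 2 * b * z
    rw [e, c_half (n := M + 3), c_three]
    simp

end Pool.Agent.Results.MP_29b953_an.Counter
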